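import Pool.Agent.Helper16.SQG.Ring
import Pool.Agent.Helper24.SQ.Rook

/-!
# The product of the row forms (for the module Gadget of project SQ)
-/

set_option autoImplicit false
set_option linter.unusedSectionVars false

namespace Helper16.SQG

open Finset Pool.Agent.Helper24.SQ

section Expand

variable {B I J : Type} [CommRing B] [DecidableEq I] [DecidableEq J]

theorem E_zero_of_lt (Y : I → J → B) {A : Finset I} {T : Finset J} (h : A.card < T.card) :
    E Y A T = 0 := by
  unfold E
  have : IsEmpty (T ↪ A) := Function.Embedding.isEmpty_of_card_lt (by simpa using h)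
  exact Fintype.sum_empty _

theorem prod_expand [Fintype J] (Y : I → J → B) (t : B) (z : J → B) (hz : ∀ l, z l * z l = 0)
    (A : Finset I) :
    ∏ i ∈ A, (t + ∑ l, Y i l * z l) =
      ∑ T : Finset J, t ^ (A.card - T.card) * E Y A T * ∏ l ∈ T, z l := by
  induction A using Finset.induction_on with
  | empty =>
    rw [prod_empty, Finset.sum_eq_single ∅]
    · simp [E_empty]
    · intro T _ hT
      rw [E_zero_of_lt Y (by rw [card_empty]; exact card_pos.2 (nonempty_iff_ne_empty.2 hT)), mul_zero,
        zero_mul]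
    · simp
  | insert i A hi ih =>
    have h1 : ∀ T : Finset J, t * (t ^ (A.card - T.card) * E Y A T * ∏ l ∈ T, z l) =
        t ^ ((insert i A).card - T.card) * E Y A T * ∏ l ∈ T, z l := by
      intro T
      rw [card_insert_of_notMem hi]
      by_cases h : A.card < T.card
      · rw [E_zero_of_lt Y h]; ring
      · rw [show A.card + 1 - T.card = (A.card - T.card) + 1 by omega, pow_succ]; ring
    have h2 : ∑ T : Finset J, (t ^ ((insert i A).card - T.card) *
        (∑ l ∈ T, Y i l * E Y A (T.erase l)) * ∏ l ∈ T, z l) =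
        (∑ l, Y i l * z l) * ∑ T : Finset J, t ^ (A.card - T.card) * E Y A T * ∏ l ∈ T, z l := by
      rw [sum_mul_sum]
      have e1 : ∀ T : Finset J, t ^ ((insert i A).card - T.card) *
          (∑ l ∈ T, Y i l * E Y A (T.erase l)) * ∏ l ∈ T, z l =
          ∑ l, if l ∈ T then t ^ ((insert i A).card - T.card) * (Y i l * E Y A (T.erase l)) *
            ∏ l ∈ T, z l else 0 := by
        intro T
        rw [mul_sum, sum_mul, ← Finset.sum_filter, Finset.filter_mem_eq_inter, Finset.univ_inter]
      rw [Finset.sum_congr rfl fun T _ => e1 T, sum_comm]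
      refine Finset.sum_congr rfl fun l _ => ?_
      rw [← Finset.sum_filter]
      have e2 : ∑ T : Finset J, Y i l * z l * (t ^ (A.card - T.card) * E Y A T * ∏ l ∈ T, z l) =
          ∑ T ∈ univ.filter (fun T : Finset J => l ∉ T),
            Y i l * z l * (t ^ (A.card - T.card) * E Y A T * ∏ l ∈ T, z l) := by
        rw [Finset.sum_filter]
        refine Finset.sum_congr rfl fun T _ => ?_
        by_cases h : l ∈ T
        · rw [if_neg (not_not.2 h)]
          have := prod_mul_x hz h
          linear_combination (Y i l * t ^ (A.card - T.card) * E Y A T) * this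
        · rw [if_pos h]
      rw [e2]
      refine Finset.sum_nbij' (fun T => T.erase l) (fun T => insert l T) ?_ ?_ ?_ ?_ ?_
      · intro T hT
        simp
      · intro T hT
        simp
      · intro T hT
        exact insert_erase (by simpa using hT)
      · intro T hT
        exact erase_insert (by simpa using hT)
      · intro T hT
        have hl : l ∈ T := by simpa using hT
        rw [card_insert_of_notMem hi, card_erase_of_mem hl, ← mul_prod_erase T z hl]
        have : 1 ≤ T.card := card_pos.2 ⟨l, hl⟩
        rw [show A.card + 1 - T.card = A.card - (T.card - 1) by omega]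
        ring
    rw [prod_insert hi, ih, add_mul, ← h2, mul_sum, Finset.sum_congr rfl fun T _ => h1 T,
      ← Finset.sum_add_distrib]
    refine Finset.sum_congr rfl fun T _ => ?_
    rw [E_row Y (mem_insert_self i A) T, erase_insert hi]
    ring

end Expand

section Core

variable {B I J γ : Type} [CommRing B] [Fintype I] [Fintype J] [DecidableEq I] [DecidableEq J]

/-- The part of the product coming from a group of columns. -/
theorem group_prod (Y : I → J → B) {s : ℕ} (hI : s ≤ Fintype.card I) (hJ : s ≤ Fintype.card J)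
    (F ω : B) (hF : F ^ (Fintype.card I - s) = ((Fintype.card I - s).factorial : B) * ω)
    (hF' : F ^ (Fintype.card I - s + 1) = 0)
    (z : J → B) (hz : ∀ l, z l * z l = 0) :
    (∑ l, z l) ^ (Fintype.card J - s) * ∏ i, (F + ∑ l, Y i l * z l) =
      ((Fintype.card I - s).factorial : B) * ((Fintype.card J - s).factorial : B) * rook s Y *
        (ω * ∏ l, z l) := by
  rw [prod_expand Y F z hz, mul_sum]
  unfold rook RK
  rw [mul_sum, sum_mul]
  symm
  refine sum_subset_zero_on_sdiff (subset_univ _) ?_ ?_
  · intro T hT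
    have hT' : T.card ≠ s := by
      intro h
      simp [h] at hT
    rcases lt_or_gt_of_ne hT' with h | h
    · have : F ^ ((univ : Finset I).card - T.card) = 0 := by
        rw [card_univ, show Fintype.card I - T.card =
          (Fintype.card I - s + 1) + (s - T.card - 1) by omega, pow_add, hF', zero_mul]
      rw [this]; ring
    · have : (∏ l ∈ T, z l) * (∑ l, z l) ^ (Fintype.card J - s) = 0 := by
        apply Deg_eq_zero (x := z) (S := univ) (k := T.card + (Fintype.card J - s))
        · rw [card_univ]; omega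
        · have h1 : (∑ l, z l) ∈ Deg z univ 1 := by
            have := sum_mem_Deg (x := z) (subset_refl (univ : Finset J)) (fun _ => (1 : B))
            simpa using this
          have h2 : (∏ l ∈ T, z l) ∈ Deg z univ T.card :=
            Submodule.subset_span ⟨T, subset_univ _, rfl, rfl⟩
          exact mul_pow_mem_Deg hz h2 h1 _
      linear_combination (F ^ ((univ : Finset I).card - T.card) * E Y univ T) * this
  · intro T hT
    have hT' : T.card = s := by simpa using hT
    have h1 : (∏ l ∈ T, z l) * (∑ l, z l) ^ (Fintype.card J - s) =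
        (∏ l ∈ T, z l) * (∑ l ∈ univ \ T, z l) ^ (Fintype.card J - s) := by
      apply mul_pow_congr
      rw [← sum_sdiff (subset_univ T), add_sub_cancel_left]
      have := prod_mul_sum hz (subset_refl T) (fun _ => (1 : B))
      simpa using this
    have h2 := (sum_pow hz (univ \ T)).1
    have hc : (univ \ T).card = Fintype.card J - s := by
      rw [card_sdiff_of_subset (subset_univ _), card_univ, hT']
    rw [hc] at h2
    rw [h2] at h1
    have h3 : (∏ l ∈ T, z l) * ∏ l ∈ univ \ T, z l = ∏ l, z l := by
      rw [mul_comm]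
      exact prod_sdiff (subset_univ T)
    rw [card_univ, hT', hF]
    linear_combination (-((Fintype.card I - s).factorial : B) * ω * E Y univ T) * h1 -
      ((Fintype.card I - s).factorial : B) * ω * E Y univ T *
        ((Fintype.card J - s).factorial : B) * h3

variable [Fintype γ] [DecidableEq γ]

theorem core (Y : γ → I → J → B) {s G m R : ℕ} (hs : 1 ≤ s) (hG : Fintype.card γ = G + 1)
    (hm : Fintype.card I - s = m) (hR : Fintype.card J = R) (hI : s ≤ Fintype.card I)
    (hJ : s ≤ Fintype.card J)
    (xg : γ → J → B) (hxg : ∀ g l, xg g l * xg g l = 0)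
    (xd : γ → Fin s → B) (hxd : ∀ g j, xd g j * xd g j = 0)
    (xf : Fin m → B) (hxf : ∀ k, xf k * xf k = 0) :
    (∏ i, (∑ k, xf k + ∑ g, ∑ l, Y g i l * xg g l)) * (∏ g, (∑ l, xg g l) ^ (R - s)) *
      (∏ g, ((∑ j, xd g j) ^ s - (-∑ l, xg g l) ^ s)) * (∑ g, ∑ j, xd g j) ^ (s * G) =
    (m.factorial : B) * ((R - s).factorial : B) *
      (s.factorial : B) * ((-1) ^ (s + 1) * (R.factorial : B)) ^ G *
      ((s * G).factorial : B) * (∑ g, rook s (Y g)) *
      ((∏ g, ∏ l, xg g l) * (∏ g, ∏ j, xd g j) * ∏ k, xf k) := by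
  set P : γ → B := fun g => ∑ l, xg g l with hP
  set D : γ → B := fun g => ∑ j, xd g j with hD
  set F : B := ∑ k, xf k with hF
  set M : B := ∏ i, (F + ∑ g, ∑ l, Y g i l * xg g l) with hM
  have hε : ∀ g, -(-P g) ^ s = (-1) ^ (s + 1) * P g ^ s := by
    intro g
    rw [neg_pow, pow_succ]
    ring
  have hPow : ∀ g, P g ^ R = (R.factorial : B) * ∏ l, xg g l := by
    intro g
    have := (sum_pow (hxg g) univ).1
    rwa [card_univ, hR] at this
  have hDow : ∀ g, D g ^ s = (s.factorial : B) * ∏ j, xd g j := by
    intro g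
    have := (sum_pow (hxd g) univ).1
    rwa [card_univ, Fintype.card_fin] at this
  have hDow' : ∀ g, D g ^ s * D g = 0 := by
    intro g
    have := (sum_pow (hxd g) univ).2
    rwa [card_univ, Fintype.card_fin, pow_succ] at this
  have hFow : F ^ m = (m.factorial : B) * ∏ k, xf k := by
    have := (sum_pow hxf univ).1
    rwa [card_univ, Fintype.card_fin] at this
  have hFow' : F ^ (m + 1) = 0 := by
    have := (sum_pow hxf univ).2
    rwa [card_univ, Fintype.card_fin] at this
  -- expansion
  have hexp : ∏ g, (D g ^ s - (-P g) ^ s) = ∑ U ∈ (univ : Finset γ).powerset,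
      (∏ g ∈ U, D g ^ s) * ∏ g ∈ univ \ U, ((-1) ^ (s + 1) * P g ^ s) := by
    rw [← Finset.prod_add]
    refine prod_congr rfl fun g _ => ?_
    rw [← hε, sub_eq_add_neg]
  set T : Finset γ → B := fun U => M * (∏ g, P g ^ (R - s)) *
    ((∏ g ∈ U, D g ^ s) * ∏ g ∈ univ \ U, ((-1) ^ (s + 1) * P g ^ s)) * (∑ g, D g) ^ (s * G) with hT
  have hsum : M * (∏ g, P g ^ (R - s)) * (∏ g, (D g ^ s - (-P g) ^ s)) * (∑ g, D g) ^ (s * G) =
      ∑ U ∈ (univ : Finset γ).powerset, T U := by
    rw [hexp, mul_sum, sum_mul]
  -- at least two groups of dummies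
  have htwo : ∀ U : Finset γ, 2 ≤ U.card → T U = 0 := by
    intro U hU
    have h : (∏ g ∈ U, D g ^ s) * (∑ g, D g) ^ (s * G) = 0 := by
      have hz : ∀ c : γ × Fin s, (fun c : γ × Fin s => xd c.1 c.2) c *
        (fun c : γ × Fin s => xd c.1 c.2) c = 0 := fun c => hxd _ _
      have hD1 : ∀ g, D g ∈ Deg (fun c : γ × Fin s => xd c.1 c.2) univ 1 := fun g =>
        Submodule.sum_mem _ fun j _ => x_mem_Deg (x := fun c : γ × Fin s => xd c.1 c.2)
          (mem_univ (g, j))
      apply Deg_eq_zero (x := fun c : γ × Fin s => xd c.1 c.2) (S := univ)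
        (k := 0 + U.card * s + s * G)
      · rw [card_univ, Fintype.card_prod, hG, Fintype.card_fin]
        nlinarith
      · apply mul_pow_mem_Deg hz
        · have := mul_prod_pow_mem_Deg hz (one_mem_Deg univ) U D (fun g _ => hD1 g) s
          rwa [one_mul] at this
        · exact Submodule.sum_mem _ fun g _ => hD1 g
    simp only [hT]
    linear_combination (M * (∏ g, P g ^ (R - s)) *
      ∏ g ∈ univ \ U, ((-1) ^ (s + 1) * P g ^ s)) * h
  -- no group of dummies
  have hzero : T ∅ = 0 := by
    have h : M * (∏ g, P g ^ (R - s)) * (∏ g, P g ^ s) = 0 := by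
      set x : (γ × J) ⊕ Fin m → B := Sum.elim (fun c : γ × J => xg c.1 c.2) xf with hx
      have hz : ∀ c, x c * x c = 0 := by
        rintro (c | c)
        · exact hxg _ _
        · exact hxf _
      have hxl : ∀ g l, xg g l ∈ Deg x univ 1 := fun g l =>
        x_mem_Deg (x := x) (mem_univ (Sum.inl (g, l)))
      have hP1 : ∀ g, P g ∈ Deg x univ 1 := fun g => Submodule.sum_mem _ fun l _ => hxl g l
      have hF1 : F ∈ Deg x univ 1 := Submodule.sum_mem _ fun k _ =>
        x_mem_Deg (x := x) (mem_univ (Sum.inr k))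
      apply Deg_eq_zero (x := x) (S := univ)
        (k := 0 + Fintype.card I + Fintype.card γ * (R - s) + Fintype.card γ * s)
      · rw [card_univ, Fintype.card_sum, Fintype.card_prod, hG, Fintype.card_fin, hR]
        have h1 : (G + 1) * (R - s) + (G + 1) * s = (G + 1) * R := by
          rw [← Nat.mul_add, Nat.sub_add_cancel (hR ▸ hJ)]
        omega
      · have e1 : M ∈ Deg x univ (0 + Fintype.card I) := by
          have := mul_prod_mem_Deg hz (one_mem_Deg univ) (univ : Finset I)
            (fun i => F + ∑ g, ∑ l, Y g i l * xg g l) (fun i _ => Submodule.add_mem _ hF1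
              (Submodule.sum_mem _ fun g _ => Submodule.sum_mem _ fun l _ =>
                Submodule.smul_mem _ (Y g i l) (hxl g l)))
          rwa [one_mul, card_univ] at this
        have e2 := mul_prod_pow_mem_Deg hz e1 (univ : Finset γ) P (fun g _ => hP1 g) (R - s)
        have e3 := mul_prod_pow_mem_Deg hz e2 (univ : Finset γ) P (fun g _ => hP1 g) s
        rwa [card_univ] at e3
    simp only [hT]
    rw [prod_empty, one_mul, sdiff_empty, prod_mul_distrib]
    linear_combination ((∏ g : γ, (-1) ^ (s + 1)) * (∑ g, D g) ^ (s * G)) * h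
  -- one group
  have hone : ∀ g, T {g} = ((m.factorial : B) * ((R - s).factorial : B) *
      (s.factorial : B) * ((-1) ^ (s + 1) * (R.factorial : B)) ^ G *
      ((s * G).factorial : B) * rook s (Y g)) *
      ((∏ g, ∏ l, xg g l) * (∏ g, ∏ j, xd g j) * ∏ k, xf k) := by
    intro g
    have hcard : (univ.erase g).card = G := by
      rw [card_erase_of_mem (mem_univ _), card_univ, hG, Nat.add_sub_cancel]
    -- dummies
    have hd : D g ^ s * (∑ g, D g) ^ (s * G) =
        (s.factorial : B) * ((s * G).factorial : B) * ∏ g, ∏ j, xd g j := by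
      have h1 : D g ^ s * (∑ g, D g) ^ (s * G) = D g ^ s * (∑ g' ∈ univ.erase g, D g') ^ (s * G) := by
        apply mul_pow_congr
        rw [← add_sum_erase univ D (mem_univ g), add_sub_cancel_right]
        exact hDow' g
      have hz : ∀ c : γ × Fin s, (fun c : γ × Fin s => xd c.1 c.2) c *
        (fun c : γ × Fin s => xd c.1 c.2) c = 0 := fun c => hxd _ _
      have h2 := (sum_pow hz ((univ.erase g) ×ˢ univ)).1
      rw [card_product, hcard, card_univ, Fintype.card_fin, sum_product, prod_product,
        Nat.mul_comm] at h2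
      have h3 : (∑ g' ∈ univ.erase g, D g') ^ (s * G) = ((s * G).factorial : B) *
        ∏ g' ∈ univ.erase g, ∏ j, xd g' j := h2
      rw [h1, h3, hDow, ← mul_prod_erase univ (fun g => ∏ j, xd g j) (mem_univ g)]
      ring
    -- groups
    have hp : (∏ g, P g ^ (R - s)) * ∏ g' ∈ univ \ {g}, ((-1) ^ (s + 1) * P g' ^ s) =
        P g ^ (R - s) * ((-1) ^ (s + 1) * (R.factorial : B)) ^ G *
          ∏ g' ∈ univ.erase g, ∏ l, xg g' l := by
      rw [sdiff_singleton_eq_erase, ← mul_prod_erase univ (fun g => P g ^ (R - s)) (mem_univ g),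
        mul_assoc, ← prod_mul_distrib]
      have h1 : ∀ g' ∈ univ.erase g, P g' ^ (R - s) * ((-1) ^ (s + 1) * P g' ^ s) =
          (-1) ^ (s + 1) * (R.factorial : B) * ∏ l, xg g' l := by
        intro g' _
        have e : P g' ^ (R - s) * P g' ^ s = P g' ^ R := by
          rw [← pow_add, Nat.sub_add_cancel (hR ▸ hJ)]
        rw [mul_left_comm, e, hPow]
        ring
      rw [prod_congr rfl h1, prod_mul_distrib, prod_const, hcard]
      ring
    -- main rows
    have hmn : (∏ g' ∈ univ.erase g, ∏ l, xg g' l) * M =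
        (∏ g' ∈ univ.erase g, ∏ l, xg g' l) * ∏ i, (F + ∑ l, Y g i l * xg g l) := by
      apply mul_prod_congr
      intro i _
      rw [add_sub_add_left_eq_sub, ← add_sum_erase univ _ (mem_univ g), add_sub_cancel_left, mul_sum]
      refine sum_eq_zero fun g' hg' => ?_
      rw [mul_sum]
      refine sum_eq_zero fun l _ => ?_
      rw [← mul_prod_erase _ (fun g' => ∏ l, xg g' l) hg']
      have := prod_mul_x (hxg g') (mem_univ l)
      linear_combination ((∏ g'' ∈ (univ.erase g).erase g', ∏ l, xg g'' l) * Y g' i l) * this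
    have hgp := group_prod (Y g) hI hJ F (∏ k, xf k) (hm ▸ hFow) (hm ▸ hFow') (xg g) (hxg g)
    rw [hm, hR] at hgp
    have hx : (xg g |> fun f => ∏ l, f l) * (∏ g' ∈ univ.erase g, ∏ l, xg g' l) = ∏ g, ∏ l, xg g l :=
      mul_prod_erase univ (fun g => ∏ l, xg g l) (mem_univ g)
    have hTg : T {g} = M * ((∏ g, P g ^ (R - s)) * ∏ g' ∈ univ \ {g}, ((-1) ^ (s + 1) * P g' ^ s)) *
        (D g ^ s * (∑ g, D g) ^ (s * G)) := by
      simp only [hT]
      rw [prod_singleton]
      ring
    rw [hTg, hp, hd]
    have h4 : M * (P g ^ (R - s) * ((-1) ^ (s + 1) * (R.factorial : B)) ^ G *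
          ∏ g' ∈ univ.erase g, ∏ l, xg g' l) = ((-1) ^ (s + 1) * (R.factorial : B)) ^ G *
        ((P g ^ (R - s)) * ∏ i, (F + ∑ l, Y g i l * xg g l)) *
          ∏ g' ∈ univ.erase g, ∏ l, xg g' l := by
      linear_combination (P g ^ (R - s) * ((-1) ^ (s + 1) * (R.factorial : B)) ^ G) * hmn
    rw [h4, hgp, ← hx]
    ring
  rw [hsum]
  have h5 : ∑ U ∈ (univ : Finset γ).powerset, T U = ∑ U ∈ powersetCard 1 (univ : Finset γ), T U := by
    symm
    apply sum_subset
    · intro U _
      exact mem_powerset.2 (subset_univ _)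
    · intro U _ hU
      have h : U.card ≠ 1 := fun h => hU (mem_powersetCard.2 ⟨subset_univ _, h⟩)
      by_cases h0 : U.card = 0
      · rw [card_eq_zero.1 h0]; exact hzero
      · exact htwo U (by omega)
  rw [h5, powersetCard_one, sum_map]
  simp only [Function.Embedding.coeFn_mk]
  rw [sum_congr rfl fun g _ => hone g, ← sum_mul, mul_sum]

end Core

end Helper16.SQG
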