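import Mathlib

/-!
# Squarefree commutative rings (for the module Gadget of project SQ)
-/

set_option autoImplicit false

namespace Helper16.SQG

open Finset MvPolynomial

section Model

variable (κ A : Type) [CommRing A]

/-- the ideal generated by the squares of the variables -/
noncomputable def sqIdeal : Ideal (MvPolynomial κ A) := Ideal.span (Set.range fun c : κ => (X c : MvPolynomial κ A) ^ 2)

/-- the squarefree ring -/
abbrev SqR : Type := MvPolynomial κ A ⧸ sqIdeal κ A

/-- the variables of the squarefree ring -/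
noncomputable def xs (c : κ) : SqR κ A := Ideal.Quotient.mk (sqIdeal κ A) (X c)

theorem xs_sq (c : κ) : xs κ A c * xs κ A c = 0 := by
  unfold xs
  rw [← map_mul, Ideal.Quotient.eq_zero_iff_mem, ← sq]
  exact Ideal.subset_span ⟨c, rfl⟩

variable [Fintype κ]

theorem coeff_sqIdeal {p : MvPolynomial κ A} (hp : p ∈ sqIdeal κ A) :
    coeff (∑ c : κ, Finsupp.single c 1) p = 0 := by
  classical
  have h : ∀ q : MvPolynomial κ A, coeff (∑ c : κ, Finsupp.single c 1) (q * p) = 0 := by
    unfold sqIdeal at hp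
    induction hp using Submodule.span_induction with
    | mem x hx =>
      obtain ⟨c, rfl⟩ := hx
      intro q
      show coeff (∑ c : κ, Finsupp.single c 1) (q * X c ^ 2) = 0
      rw [show (X c : MvPolynomial κ A) ^ 2 = monomial (Finsupp.single c 2) 1 by
        rw [X, monomial_pow]; simp, coeff_mul_monomial', if_neg]
      intro hle
      have h1 := hle c
      rw [Finsupp.single_eq_same, Finsupp.finset_sum_apply] at h1
      simp only [Finsupp.single_apply, Finset.sum_ite_eq', Finset.mem_univ, if_true] at h1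
      omega
    | zero => intro q; simp
    | add x y _ _ hx hy => intro q; rw [mul_add, coeff_add, hx, hy, add_zero]
    | smul a x _ hx =>
      intro q
      rw [smul_eq_mul, ← mul_assoc]
      exact hx _
  have := h 1
  rwa [one_mul] at this

theorem xs_inj {a b : A} (h : algebraMap A (SqR κ A) a * ∏ c, xs κ A c = algebraMap A (SqR κ A) b * ∏ c, xs κ A c) :
    a = b := by
  classical
  have e : ∀ a : A, algebraMap A (SqR κ A) a * ∏ c, xs κ A c =
      Ideal.Quotient.mk (sqIdeal κ A) (C a * ∏ c, X c) := by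
    intro a
    rw [map_mul, map_prod]
    rfl
  rw [e, e, Ideal.Quotient.eq] at h
  have h1 := coeff_sqIdeal κ A h
  have e2 : ∀ a : A, coeff (∑ c : κ, Finsupp.single c 1) (C a * ∏ c, X c : MvPolynomial κ A) = a := by
    intro a
    have : (∏ c : κ, X c : MvPolynomial κ A) = monomial (∑ c : κ, Finsupp.single c 1) 1 := by
      rw [monomial_sum_one]
      rfl
    rw [coeff_C_mul, this, coeff_monomial, if_pos rfl, mul_one]
  rw [coeff_sub, e2, e2, sub_eq_zero] at h1
  exact h1

end Model

section General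

variable {A B : Type} [CommRing A] [CommRing B] (f : A →+* B)

/-- The product of `n` linear forms in `n` variables with square zero. -/
theorem prod_forms {n : ℕ} (M : Matrix (Fin n) (Fin n) A) (x : Fin n → B) (hx : ∀ c, x c * x c = 0) :
    ∏ i, ∑ j, f (M i j) * x j = f M.permanent * ∏ j, x j := by
  classical
  rw [Finset.prod_univ_sum, Fintype.piFinset_univ, ← Matrix.permanent_transpose, Matrix.permanent, map_sum,
    Finset.sum_mul]
  have h0 : ∀ φ : Fin n → Fin n, ¬ Function.Injective φ → ∏ i, f (M i (φ i)) * x (φ i) = 0 := by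
    intro φ hφ
    rw [Function.Injective] at hφ
    push Not at hφ
    obtain ⟨i, j, hij, hne⟩ := hφ
    rw [prod_mul_distrib]
    have : ∏ i, x (φ i) = 0 := by
      rw [← mul_prod_erase univ _ (mem_univ i), ← mul_prod_erase _ _ (mem_erase.2 ⟨hne.symm, mem_univ j⟩), hij,
        ← mul_assoc, hx, zero_mul]
    rw [this, mul_zero]
  have h1 : ∀ σ : Equiv.Perm (Fin n), f (∏ i, Matrix.transpose M (σ i) i) * ∏ j, x j =
      ∏ i, f (M i (σ i)) * x (σ i) := by
    intro σ
    rw [prod_mul_distrib, map_prod, Equiv.prod_comp σ x]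
    rfl
  rw [Finset.sum_congr rfl (fun σ _ => h1 σ)]
  have h2 := Finset.sum_image (s := (univ : Finset (Equiv.Perm (Fin n)))) (g := fun σ : Equiv.Perm (Fin n) => (σ : Fin n → Fin n))
    (f := fun φ : Fin n → Fin n => ∏ i, f (M i (φ i)) * x (φ i)) (fun a _ b _ h => DFunLike.coe_injective h)
  rw [← h2]
  symm
  apply Finset.sum_subset (subset_univ _)
  intro φ _ hφ
  apply h0
  intro hinj
  apply hφ
  rw [mem_image]
  exact ⟨Equiv.ofBijective φ (Finite.injective_iff_bijective.1 hinj), mem_univ _, rfl⟩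

theorem prod_forms' {n : ℕ} {ρ κ : Type} [Fintype ρ] [Fintype κ] (eR : Fin n ≃ ρ) (eC : Fin n ≃ κ)
    (M : ρ → κ → A) (x : κ → B) (hx : ∀ c, x c * x c = 0) :
    ∏ r, ∑ c, f (M r c) * x c = f (Matrix.of fun i j => M (eR i) (eC j)).permanent * ∏ c, x c := by
  rw [← Equiv.prod_comp eC x, ← prod_forms f (Matrix.of fun i j => M (eR i) (eC j)) (fun j => x (eC j)) (fun c => hx _),
    ← Equiv.prod_comp eR]
  refine prod_congr rfl fun i _ => ?_
  rw [← Equiv.sum_comp eC]
  rfl

theorem add_pow_sq_zero {a b : B} (ha : a * a = 0) (m : ℕ) :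
    (a + b) ^ (m + 1) = b ^ (m + 1) + (m + 1 : ℕ) * (a * b ^ m) := by
  induction m with
  | zero => simp; ring
  | succ m ih =>
    rw [pow_succ, ih]
    push_cast
    linear_combination ((m + 1 : B) * b ^ m) * ha

variable {κ : Type} [DecidableEq κ] {x : κ → B}

theorem sum_pow (hx : ∀ c, x c * x c = 0) (S : Finset κ) :
    (∑ c ∈ S, x c) ^ S.card = (S.card.factorial : B) * ∏ c ∈ S, x c ∧ (∑ c ∈ S, x c) ^ (S.card + 1) = 0 := by
  induction S using Finset.induction_on with
  | empty => simp
  | insert a S ha ih =>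
    obtain ⟨h1, h2⟩ := ih
    rw [card_insert_of_notMem ha, sum_insert ha, prod_insert ha]
    constructor
    · rw [add_pow_sq_zero (hx a), h1, h2, Nat.factorial_succ]
      push_cast
      ring
    · rw [add_pow_sq_zero (hx a), h2, pow_succ, h2]
      ring

/-- the span of the monomials of degree `k` in the variables of `S` -/
def Deg (x : κ → B) (S : Finset κ) (k : ℕ) : Submodule B B :=
  Submodule.span B {z | ∃ T ⊆ S, T.card = k ∧ z = ∏ c ∈ T, x c}

theorem Deg_eq_zero {S : Finset κ} {k : ℕ} (hk : S.card < k) {z : B} (hz : z ∈ Deg x S k) : z = 0 := by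
  have : {z | ∃ T ⊆ S, T.card = k ∧ z = ∏ c ∈ T, x c} = (∅ : Set B) := by
    ext z
    simp only [Set.mem_ofPred_eq, Set.mem_empty_iff_false, iff_false, not_exists, not_and]
    intro T hT hc
    have := card_le_card hT
    omega
  unfold Deg at hz
  rw [this, Submodule.span_empty] at hz
  exact (Submodule.mem_bot B).1 hz

theorem one_mem_Deg (S : Finset κ) : (1 : B) ∈ Deg x S 0 :=
  Submodule.subset_span ⟨∅, empty_subset _, card_empty, by simp⟩

theorem mul_x_mem_Deg (hx : ∀ c, x c * x c = 0) {S : Finset κ} {k : ℕ} {z : B} (hz : z ∈ Deg x S k) {c : κ}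
    (hc : c ∈ S) : z * x c ∈ Deg x S (k + 1) := by
  unfold Deg at hz
  induction hz using Submodule.span_induction with
  | mem y hy =>
    obtain ⟨T, hT, hk, rfl⟩ := hy
    by_cases h : c ∈ T
    · rw [← mul_prod_erase T _ h, mul_assoc, mul_comm _ (x c), ← mul_assoc, hx, zero_mul]
      exact Submodule.zero_mem _
    · refine Submodule.subset_span ⟨insert c T, insert_subset hc hT, by rw [card_insert_of_notMem h, hk], ?_⟩
      rw [prod_insert h, mul_comm]
  | zero => rw [zero_mul]; exact Submodule.zero_mem _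
  | add y y' _ _ h1 h2 => rw [add_mul]; exact Submodule.add_mem _ h1 h2
  | smul a y _ h => rw [smul_eq_mul, mul_assoc]; exact Submodule.smul_mem _ a h

/-- a form with coefficients in `B` in the variables of `S` -/
theorem mul_form_mem_Deg (hx : ∀ c, x c * x c = 0) {S : Finset κ} {k : ℕ} {z : B} (hz : z ∈ Deg x S k) {y : B}
    (hy : y ∈ Deg x S 1) : z * y ∈ Deg x S (k + 1) := by
  unfold Deg at hy
  induction hy using Submodule.span_induction with
  | mem y hy =>
    obtain ⟨T, hT, hk, rfl⟩ := hy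
    obtain ⟨c, rfl⟩ := card_eq_one.1 hk
    rw [prod_singleton]
    exact mul_x_mem_Deg hx hz (hT (mem_singleton_self c))
  | zero => rw [mul_zero]; exact Submodule.zero_mem _
  | add y y' _ _ h1 h2 => rw [mul_add]; exact Submodule.add_mem _ h1 h2
  | smul a y _ h =>
    rw [smul_eq_mul, mul_left_comm]
    exact Submodule.smul_mem _ a h

theorem x_mem_Deg {S : Finset κ} {c : κ} (hc : c ∈ S) : x c ∈ Deg x S 1 :=
  Submodule.subset_span ⟨{c}, singleton_subset_iff.2 hc, card_singleton c, by simp⟩

theorem sum_mem_Deg {S T : Finset κ} (h : T ⊆ S) (a : κ → B) : ∑ c ∈ T, a c * x c ∈ Deg x S 1 :=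
  Submodule.sum_mem _ fun c hc => Submodule.smul_mem _ (a c) (x_mem_Deg (h hc))

theorem mul_pow_mem_Deg (hx : ∀ c, x c * x c = 0) {S : Finset κ} {k : ℕ} {z : B} (hz : z ∈ Deg x S k) {y : B}
    (hy : y ∈ Deg x S 1) (l : ℕ) : z * y ^ l ∈ Deg x S (k + l) := by
  induction l with
  | zero => rw [pow_zero, mul_one]; exact hz
  | succ l ih => rw [pow_succ, ← mul_assoc, ← add_assoc]; exact mul_form_mem_Deg hx ih hy

theorem mul_prod_mem_Deg (hx : ∀ c, x c * x c = 0) {S : Finset κ} {k : ℕ} {z : B} (hz : z ∈ Deg x S k)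
    {ι : Type} (t : Finset ι) (y : ι → B) (hy : ∀ i ∈ t, y i ∈ Deg x S 1) :
    z * ∏ i ∈ t, y i ∈ Deg x S (k + t.card) := by
  classical
  induction t using Finset.induction_on with
  | empty => simpa using hz
  | insert a t ha ih =>
    rw [prod_insert ha, card_insert_of_notMem ha, mul_left_comm, mul_comm, ← add_assoc]
    exact mul_form_mem_Deg hx (ih fun i hi => hy i (mem_insert_of_mem hi)) (hy a (mem_insert_self _ _))

theorem mul_prod_pow_mem_Deg (hx : ∀ c, x c * x c = 0) {S : Finset κ} {k : ℕ} {z : B} (hz : z ∈ Deg x S k)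
    {ι : Type} (t : Finset ι) (y : ι → B) (hy : ∀ i ∈ t, y i ∈ Deg x S 1) (l : ℕ) :
    z * ∏ i ∈ t, y i ^ l ∈ Deg x S (k + t.card * l) := by
  classical
  induction t using Finset.induction_on with
  | empty => simpa using hz
  | insert a t ha ih =>
    rw [prod_insert ha, card_insert_of_notMem ha, add_mul, one_mul, ← add_assoc, mul_left_comm,
      mul_comm (y a ^ l)]
    exact mul_pow_mem_Deg hx (ih fun i hi => hy i (mem_insert_of_mem hi)) (hy a (mem_insert_self _ _)) l

/-- annihilated summands can be dropped in a product -/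
theorem mul_prod_congr {ι : Type} (t : Finset ι) (z : B) (a b : ι → B) (h : ∀ i ∈ t, z * (a i - b i) = 0) :
    z * ∏ i ∈ t, a i = z * ∏ i ∈ t, b i := by
  classical
  induction t using Finset.induction_on with
  | empty => rfl
  | insert c t hc ih =>
    rw [prod_insert hc, prod_insert hc]
    have h1 := h c (mem_insert_self _ _)
    have h2 := ih fun i hi => h i (mem_insert_of_mem hi)
    linear_combination (a c) * h2 + (∏ i ∈ t, b i) * h1

/-- annihilated summands can be dropped in a power -/
theorem mul_pow_congr (z a b : B) (h : z * (a - b) = 0) (l : ℕ) : z * a ^ l = z * b ^ l := by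
  have := mul_prod_congr (range l) z (fun _ => a) (fun _ => b) (fun _ _ => h)
  simpa using this

theorem prod_mul_x (hx : ∀ c, x c * x c = 0) {S : Finset κ} {c : κ} (hc : c ∈ S) : (∏ c ∈ S, x c) * x c = 0 := by
  rw [← mul_prod_erase S _ hc, mul_assoc, mul_comm _ (x c), ← mul_assoc, hx, zero_mul]

theorem prod_mul_sum (hx : ∀ c, x c * x c = 0) {S T : Finset κ} (h : T ⊆ S) (a : κ → B) :
    (∏ c ∈ S, x c) * ∑ c ∈ T, a c * x c = 0 := by
  rw [mul_sum]
  refine sum_eq_zero fun c hc => ?_
  rw [mul_left_comm, prod_mul_x hx (h hc), mul_zero]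

end General

section Roots

theorem prod_roots {B : Type} [CommRing B] (f : ℂ →+* B) {s : ℕ} (hs : 1 ≤ s) {ζ : ℂ} (hζ : IsPrimitiveRoot ζ s)
    (D P : B) : ∏ j : Fin s, (f (ζ ^ (j : ℕ)) * P + D) = D ^ s - (-P) ^ s := by
  have h1 : ∏ i ∈ Finset.range s, ((X 0 : MvPolynomial (Fin 2) ℂ) - C ζ ^ i * X 1) = X 0 ^ s - X 1 ^ s := by
    have hζ' : IsPrimitiveRoot (C ζ : MvPolynomial (Fin 2) ℂ) s :=
      hζ.map_of_injective (C_injective (Fin 2) ℂ)
    have := X_pow_sub_C_eq_prod (R := MvPolynomial (Fin 2) ℂ) hζ' (α := X 1) (a := X 1 ^ s) (by omega) rfl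
    have h2 := congrArg (Polynomial.eval (X 0 : MvPolynomial (Fin 2) ℂ)) this
    rw [Polynomial.eval_prod] at h2
    simp only [Polynomial.eval_sub, Polynomial.eval_pow, Polynomial.eval_X, Polynomial.eval_C] at h2
    exact h2.symm
  have h3 := congrArg (eval₂Hom f ![D, -P]) h1
  rw [map_prod] at h3
  simp only [map_sub, map_mul, map_pow, eval₂Hom_X', eval₂Hom_C, Matrix.cons_val_zero, Matrix.cons_val_one] at h3
  rw [← h3, ← Fin.prod_univ_eq_prod_range (fun i => D - f ζ ^ i * -P) s]
  refine prod_congr rfl fun j _ => ?_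
  rw [map_pow]
  ring

end Roots

end Helper16.SQG
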